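import Pool.Agent.Helper54.SAW.Arr

/-!
# MP_993f2f, block A4: the Sparre Andersen bound

A signed permutation of `l` integers has all partial sums positive with probability at most
`1 / √(l+1)`: perturb the integers so that no signed partial sum vanishes, split every arrangement
at the unique minimum of its partial sums.
-/

set_option autoImplicit false

namespace Pool.Agent.Helper48.SAW

open Finset Pool.Agent.Helper54.SAW

section

variable {ι : Type*}

/-- all nonempty prefixes have positive height -/
def PosL (v : ι → ℤ) (l : List (ι × Bool)) : Prop :=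
  ∀ z : ℕ, 1 ≤ z → z ≤ l.length → 0 < Ht v (l.take z)

/-- all nonempty suffixes have negative height -/
def NegL (v : ι → ℤ) (l : List (ι × Bool)) : Prop :=
  ∀ z : ℕ, z < l.length → Ht v (l.drop z) < 0

/-- no signed sum over a nonempty set of labels vanishes -/
def Gen (v : ι → ℤ) : Prop :=
  ∀ l : List (ι × Bool), l ≠ [] → (l.map Prod.fst).Nodup → Ht v l ≠ 0

theorem PosL_flip_reverse (v : ι → ℤ) (l : List (ι × Bool)) :
    PosL v (flipS l.reverse) ↔ NegL v l := by
  unfold PosL NegL
  have key : ∀ z ≤ l.length, Ht v ((flipS l.reverse).take z) = - Ht v (l.drop (l.length - z)) := by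
    intro z hz
    rw [flipS_take, Ht_flipS, List.take_reverse]
    rw [Ht_perm v (List.reverse_perm _)]
  have hlen : (flipS l.reverse).length = l.length := by simp [flipS]
  rw [hlen]
  constructor
  · intro h z hz
    have := h (l.length - z) (by omega) (by omega)
    rw [key _ (by omega)] at this
    have e : l.length - (l.length - z) = z := by omega
    rw [e] at this
    linarith
  · intro h z hz hz'
    rw [key z hz']
    have := h (l.length - z) (by omega)
    linarith

theorem argmin [DecidableEq ι] (v : ι → ℤ) (hv : Gen v) (l : List (ι × Bool))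
    (hl : (l.map Prod.fst).Nodup) :
    ∃ q ≤ l.length, ∀ q' ≤ l.length, (NegL v (l.take q') ∧ PosL v (l.drop q')) ↔ q' = q := by
  classical
  set S : ℕ → ℤ := fun i => Ht v (l.take i) with hS
  have hinj : ∀ i j, i < j → j ≤ l.length → S i ≠ S j := by
    intro i j hij hj h
    have e : l.take j = l.take i ++ (l.drop i).take (j - i) := by
      rw [← List.take_add]
      congr 1
      omega
    have h1 : S j = S i + Ht v ((l.drop i).take (j - i)) := by
      simp only [hS]
      rw [e, Ht_append]
    apply hv ((l.drop i).take (j - i))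
    · intro h0
      have := congrArg List.length h0
      simp only [List.length_take, List.length_drop, List.length_nil] at this
      omega
    · refine hl.sublist ?_
      exact ((List.take_sublist _ _).trans (List.drop_sublist _ _)).map _
    · linarith
  have hneg : ∀ q ≤ l.length, (NegL v (l.take q) ↔ ∀ z < q, S q < S z) := by
    intro q hq
    unfold NegL
    have hlen : (l.take q).length = q := by rw [List.length_take]; omega
    rw [hlen]
    have key : ∀ z < q, Ht v ((l.take q).drop z) = S q - S z := by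
      intro z hz
      have e : l.take q = (l.take q).take z ++ (l.take q).drop z := (List.take_append_drop _ _).symm
      have h1 := congrArg (Ht v) e
      rw [Ht_append, List.take_take, min_eq_left hz.le] at h1
      simp only [hS]
      linarith
    constructor
    · intro h z hz
      have := h z hz
      rw [key z hz] at this
      linarith
    · intro h z hz
      rw [key z hz]
      have := h z hz
      linarith
  have hpos : ∀ q ≤ l.length, (PosL v (l.drop q) ↔ ∀ z, q < z → z ≤ l.length → S q < S z) := by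
    intro q hq
    unfold PosL
    have hlen : (l.drop q).length = l.length - q := List.length_drop
    rw [hlen]
    have key : ∀ z, Ht v ((l.drop q).take z) = S (q + z) - S q := by
      intro z
      simp only [hS]
      rw [List.take_add, Ht_append]
      ring
    constructor
    · intro h z hz hz'
      have := h (z - q) (by omega) (by omega)
      rw [key] at this
      have e : q + (z - q) = z := by omega
      rw [e] at this
      linarith
    · intro h z hz hz'
      rw [key]
      have := h (q + z) (by omega) (by omega)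
      linarith
  obtain ⟨q, hq, hmin⟩ := exists_min_image (range (l.length + 1)) S ⟨0, by simp⟩
  rw [mem_range] at hq
  have hmin' : ∀ z ≤ l.length, z ≠ q → S q < S z := by
    intro z hz hne
    have h1 := hmin z (by rw [mem_range]; omega)
    refine lt_of_le_of_ne h1 ?_
    rcases lt_or_gt_of_ne hne with h | h
    · exact (hinj z q h (by omega)).symm
    · exact hinj q z h hz
  refine ⟨q, by omega, ?_⟩
  intro q' hq'
  rw [hneg q' hq', hpos q' hq']
  constructor
  · rintro ⟨h1, h2⟩
    by_contra hne
    have h3 := hmin' q' hq' hne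
    rcases lt_or_gt_of_ne hne with h | h
    · have := h2 q h (by omega)
      linarith
    · have := h1 q h
      linarith
  · rintro rfl
    exact ⟨fun z hz => hmin' z (by omega) hz.ne, fun z hz hz' => hmin' z hz' hz.ne'⟩

variable [Fintype ι] [DecidableEq ι]

open Classical in
/-- number of positive arrangements -/
noncomputable def NN (v : ι → ℤ) (T : Finset ι) : ℕ := ((arr T).filter (PosL v)).card

theorem sum_parr {M : Type*} [AddCommMonoid M] (T : Finset ι) (q : ℕ)
    (F : List (ι × Bool) → M) :
    ∑ a ∈ parr T q, F a = ∑ Q ∈ powersetCard q T, ∑ a ∈ arr Q, F a := by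
  rw [← sum_fiberwise_of_maps_to (s := parr T q) (t := powersetCard q T) (g := supp)]
  · refine sum_congr rfl fun Q hQ => ?_
    rw [mem_powersetCard] at hQ
    refine sum_congr ?_ fun _ _ => rfl
    ext l
    rw [mem_filter, mem_parr, mem_arr]
    constructor
    · rintro ⟨⟨h1, h2, h3⟩, h4⟩
      exact ⟨h2, h4⟩
    · rintro ⟨h1, h2⟩
      refine ⟨⟨?_, h1, ?_⟩, h2⟩
      · rw [← card_supp h1, h2, hQ.2]
      · rw [h2]; exact hQ.1
  · intro l hl
    rw [mem_parr] at hl
    rw [mem_powersetCard]
    exact ⟨hl.2.2, by rw [card_supp hl.2.1]; exact hl.1⟩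

theorem split' {M : Type*} [AddCommMonoid M] (T : Finset ι) (q : ℕ) (hq : q ≤ T.card)
    (F : List (ι × Bool) → List (ι × Bool) → M) :
    ∑ l ∈ arr T, F (l.take q) (l.drop q) =
      ∑ Q ∈ powersetCard q T, ∑ a ∈ arr Q, ∑ b ∈ arr (T \ Q), F a b := by
  rw [sum_arr_split T q hq F, sum_parr]
  refine sum_congr rfl fun Q _ => sum_congr rfl fun a ha => ?_
  rw [(mem_arr.1 ha).2]

omit [Fintype ι] [DecidableEq ι] in
theorem frf (l : List (ι × Bool)) : flipS (flipS l.reverse).reverse = l := by
  have h : (flipS l.reverse).reverse = flipS l := by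
    unfold flipS
    rw [List.map_reverse, List.reverse_reverse]
  rw [h, flipS_flipS]

open Classical in
theorem card_NegL (v : ι → ℤ) (T : Finset ι) : ((arr T).filter (NegL v)).card = NN v T := by
  unfold NN
  refine card_bij' (fun l _ => flipS l.reverse) (fun l _ => flipS l.reverse) ?_ ?_ ?_ ?_
  · intro l hl
    rw [mem_filter] at hl ⊢
    exact ⟨arr_flipS (arr_perm hl.1 (List.reverse_perm l)), (PosL_flip_reverse v l).2 hl.2⟩
  · intro l hl
    rw [mem_filter] at hl ⊢
    refine ⟨arr_flipS (arr_perm hl.1 (List.reverse_perm l)), ?_⟩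
    rw [← PosL_flip_reverse]
    rw [frf]
    exact hl.2
  · intro l _
    exact frf l
  · intro l _
    exact frf l

open Classical in
theorem card_arr_eq (v : ι → ℤ) (hv : Gen v) (T : Finset ι) :
    (arr T).card = ∑ q ∈ range (T.card + 1), ∑ Q ∈ powersetCard q T, NN v Q * NN v (T \ Q) := by
  have h1 : ∀ l ∈ arr T, (∑ q ∈ range (T.card + 1),
      (if NegL v (l.take q) ∧ PosL v (l.drop q) then 1 else 0)) = 1 := by
    intro l hl
    have hlen := length_arr hl
    obtain ⟨q, hq, h⟩ := argmin v hv l (mem_arr.1 hl).1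
    rw [sum_eq_single q]
    · rw [if_pos ((h q hq).2 rfl)]
    · intro q' hq' hne
      rw [if_neg]
      intro h'
      rw [mem_range] at hq'
      exact hne ((h q' (by omega)).1 h')
    · intro h'
      exfalso
      apply h'
      rw [mem_range]
      omega
  rw [card_eq_sum_ones, ← sum_congr rfl h1, sum_comm]
  refine sum_congr rfl fun q hq => ?_
  rw [mem_range] at hq
  rw [split' T q (by omega) (fun a b => if NegL v a ∧ PosL v b then 1 else 0)]
  refine sum_congr rfl fun Q _ => ?_
  have h2 : ∀ a ∈ arr Q, ∀ b ∈ arr (T \ Q), (if NegL v a ∧ PosL v b then 1 else 0) =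
      (if NegL v a then 1 else 0) * (if PosL v b then 1 else 0) := by
    intro a _ b _
    by_cases ha : NegL v a <;> by_cases hb : PosL v b <;> simp [ha, hb]
  rw [sum_congr rfl fun a ha => sum_congr rfl (h2 a ha), ← sum_mul_sum, ← card_NegL]
  unfold NN
  rw [card_filter, card_filter]

theorem NN_empty (v : ι → ℤ) : NN v ∅ = 1 := by
  classical
  unfold NN
  have h1 : arr (∅ : Finset ι) = {[]} := by
    ext l
    rw [mem_arr, mem_singleton]
    constructor
    · rintro ⟨h1, h2⟩
      have := card_supp h1
      rw [h2, card_empty] at this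
      exact List.length_eq_zero_iff.1 this.symm
    · rintro rfl
      simp [supp]
  rw [h1, filter_singleton, if_pos, card_singleton]
  intro z hz hz'
  simp at hz'
  omega

open Classical in
/-- prefixes of positive arrangements are positive -/
theorem NN_le (v : ι → ℤ) (T : Finset ι) (q : ℕ) (hq : q ≤ T.card) :
    NN v T ≤ ∑ Q ∈ powersetCard q T, NN v Q * (arr (T \ Q)).card := by
  have h1 : NN v T ≤ ∑ l ∈ arr T, (if PosL v (l.take q) then 1 else 0) := by
    unfold NN
    rw [card_filter]
    refine sum_le_sum fun l hl => ?_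
    by_cases h : PosL v l
    · rw [if_pos h, if_pos]
      intro z hz hz'
      have hlen : (l.take q).length = q := by
        rw [List.length_take, length_arr hl]; omega
      rw [hlen] at hz'
      rw [List.take_take, min_eq_left hz']
      exact h z hz (by rw [length_arr hl]; omega)
    · rw [if_neg h]; exact Nat.zero_le _
  refine h1.trans (le_of_eq ?_)
  rw [split' T q hq (fun a _ => if PosL v a then 1 else 0)]
  refine sum_congr rfl fun Q _ => ?_
  simp only [sum_const, smul_eq_mul]
  rw [← mul_sum, mul_comm]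
  unfold NN
  rw [card_filter]

theorem card_arr_pos' (T : Finset ι) : 0 < (arr T).card := card_pos.2 (arr_nonempty T)

/-- the number of positive arrangements depends only on the number of labels -/
theorem NN_eq (v : ι → ℤ) (hv : Gen v) : ∀ t : ℕ, ∀ T T' : Finset ι, T.card = t → T'.card = t →
    NN v T = NN v T' := by
  classical
  intro t
  induction t using Nat.strong_induction_on with
  | _ t ih =>
  let M : ℕ → ℕ := fun q => if h : ∃ S : Finset ι, S.card = q then NN v h.choose else 0
  have hM : ∀ S : Finset ι, S.card < t → NN v S = M S.card := by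
    intro S hS
    have h : ∃ S' : Finset ι, S'.card = S.card := ⟨S, rfl⟩
    simp only [M, dif_pos h]
    exact ih S.card hS S _ rfl h.choose_spec
  have key : ∀ S : Finset ι, S.card = t → 0 < t →
      t.factorial * 2 ^ t = 2 * NN v S + ∑ q ∈ Ioo 0 t, t.choose q * (M q * M (t - q)) := by
    intro S hS ht
    have h1 := card_arr_eq v hv S
    rw [card_arr, hS] at h1
    rw [h1]
    have h2 : range (t + 1) = insert 0 (insert t (Ioo 0 t)) := by
      ext q
      simp only [mem_range, mem_insert, mem_Ioo]
      omega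
    rw [h2, sum_insert, sum_insert]
    · have h3 : ∑ Q ∈ powersetCard 0 S, NN v Q * NN v (S \ Q) = NN v S := by
        rw [powersetCard_zero, sum_singleton, NN_empty, sdiff_empty, one_mul]
      have h4 : ∑ Q ∈ powersetCard t S, NN v Q * NN v (S \ Q) = NN v S := by
        rw [← hS, powersetCard_self, sum_singleton, sdiff_self, bot_eq_empty, NN_empty, mul_one]
      have h5 : ∀ q ∈ Ioo 0 t, ∑ Q ∈ powersetCard q S, NN v Q * NN v (S \ Q) =
          t.choose q * (M q * M (t - q)) := by
        intro q hq
        rw [mem_Ioo] at hq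
        have h6 : ∀ Q ∈ powersetCard q S, NN v Q * NN v (S \ Q) = M q * M (t - q) := by
          intro Q hQ
          rw [mem_powersetCard] at hQ
          have h7 : (S \ Q).card = t - q := by rw [card_sdiff_of_subset hQ.1, hS, hQ.2]
          rw [hM Q (by omega), hM (S \ Q) (by omega), h7, hQ.2]
        rw [sum_congr rfl h6, sum_const, card_powersetCard, hS, smul_eq_mul]
      rw [h3, h4, sum_congr rfl h5]
      ring
    · simp
    · simp only [mem_insert, mem_Ioo]
      omega
  intro T T' hT hT'
  rcases Nat.eq_zero_or_pos t with rfl | ht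
  · rw [card_eq_zero] at hT hT'
    rw [hT, hT']
  · have h1 := key T hT ht
    have h2 := key T' hT' ht
    omega

end

/-- the integers `2^i` -/
def pw (k : ℕ) : Fin k → ℤ := fun i => 2 ^ (i : ℕ)

theorem Ht_lin {ι : Type*} (c : ℤ) (x p : ι → ℤ) (l : List (ι × Bool)) :
    Ht (fun i => c * x i + p i) l = c * Ht x l + Ht p l := by
  induction l with
  | nil => simp [Ht]
  | cons a l ih =>
    rw [Ht_cons, Ht_cons, Ht_cons, ih]
    rcases a with ⟨i, b⟩
    cases b <;> simp <;> ring

theorem pw_bound {k : ℕ} (l : List (Fin k × Bool)) (hl : (l.map Prod.fst).Nodup) :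
    |Ht (pw k) l| < 2 ^ k := by
  have h1 : ∀ l : List (Fin k × Bool), |Ht (pw k) l| ≤ ((l.map Prod.fst).map (pw k)).sum := by
    intro l
    induction l with
    | nil => simp [Ht]
    | cons a l ih =>
      rw [Ht_cons]
      rcases a with ⟨i, b⟩
      have hp : 0 ≤ pw k i := by unfold pw; positivity
      have h2 : |if b then pw k i else -pw k i| = pw k i := by
        cases b
        · simp [abs_of_nonneg hp]
        · simp [abs_of_nonneg hp]
      simp only [List.map_cons, List.sum_cons]
      refine (abs_add_le _ _).trans ?_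
      rw [h2]
      linarith
  refine lt_of_le_of_lt (h1 l) ?_
  rw [← List.sum_toFinset _ hl]
  calc ∑ i ∈ (l.map Prod.fst).toFinset, pw k i ≤ ∑ i : Fin k, pw k i :=
        sum_le_sum_of_subset_of_nonneg (subset_univ _) fun i _ _ => by unfold pw; positivity
    _ = ∑ i ∈ range k, (2 : ℤ) ^ i := by
        unfold pw
        rw [sum_range]
    _ < 2 ^ k := by
        have h3 : ∑ i ∈ range k, (2 : ℤ) ^ i = 2 ^ k - 1 := by
          have := geom_sum_mul (2 : ℤ) k
          linarith
        rw [h3]; linarith

theorem pw_ne {k : ℕ} (l : List (Fin k × Bool)) (h0 : l ≠ []) (hl : (l.map Prod.fst).Nodup) :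
    Ht (pw k) l ≠ 0 := by
  classical
  intro h
  have hne : (l.map Prod.fst).toFinset.Nonempty := by
    rw [List.toFinset_nonempty_iff]
    simpa using h0
  obtain ⟨m, hm, hmin⟩ := exists_min_image _ (fun i : Fin k => (i : ℕ)) hne
  rw [List.mem_toFinset, List.mem_map] at hm
  obtain ⟨⟨m', b⟩, hmem, rfl⟩ := hm
  simp only at hmin
  have hperm : l.Perm ((m', b) :: l.erase (m', b)) := List.perm_cons_erase hmem
  have h1 := Ht_perm (pw k) hperm
  rw [h, Ht_cons] at h1
  have hnod : (((m', b) :: l.erase (m', b)).map Prod.fst).Nodup := (hperm.map _).nodup_iff.1 hl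
  rw [List.map_cons, List.nodup_cons] at hnod
  have h2 : (2 : ℤ) ^ ((m' : ℕ) + 1) ∣ Ht (pw k) (l.erase (m', b)) := by
    unfold Ht
    apply List.dvd_sum
    intro y hy
    rw [List.mem_map] at hy
    obtain ⟨⟨i, c⟩, hi, rfl⟩ := hy
    have hi1 : i ∈ (l.map Prod.fst).toFinset := by
      rw [List.mem_toFinset, List.mem_map]
      exact ⟨(i, c), List.mem_of_mem_erase hi, rfl⟩
    have hi2 := hmin i hi1
    have hi3 : i ≠ m' := by
      rintro rfl
      apply hnod.1
      rw [List.mem_map]
      exact ⟨_, hi, rfl⟩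
    have hi4 : (m' : ℕ) + 1 ≤ (i : ℕ) := by
      have : (i : ℕ) ≠ (m' : ℕ) := fun h => hi3 (Fin.ext h)
      omega
    have h3 : (2 : ℤ) ^ ((m' : ℕ) + 1) ∣ pw k i := pow_dvd_pow 2 hi4
    cases c
    · simpa using h3
    · simpa using h3
  have h3 : (2 : ℤ) ^ ((m' : ℕ) + 1) ∣ 2 ^ (m' : ℕ) := by
    have h4 : (2 : ℤ) ^ (m' : ℕ) = pw k m' := rfl
    rw [h4]
    cases b
    · simp only [Bool.false_eq_true, if_false] at h1
      have : pw k m' = Ht (pw k) (l.erase (m', false)) := by linarith
      rw [this]; exact h2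
    · simp only [if_true] at h1
      have : pw k m' = -Ht (pw k) (l.erase (m', true)) := by linarith
      rw [this]; exact (dvd_neg).2 h2
  have h4 := Int.le_of_dvd (by positivity) h3
  have h5 : (2 : ℤ) ^ ((m' : ℕ) + 1) = 2 * 2 ^ (m' : ℕ) := by ring
  have h6 : (0 : ℤ) < 2 ^ (m' : ℕ) := by positivity
  linarith

theorem gen_pert {k : ℕ} (x : Fin k → ℤ) : Gen (fun i => 2 ^ k * x i + pw k i) := by
  intro l h0 hl h
  rw [Ht_lin] at h
  have h1 := pw_bound l hl
  have h2 := pw_ne l h0 hl
  have h3 : (2 : ℤ) ^ k ∣ Ht (pw k) l := ⟨-Ht x l, by linarith⟩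
  exact h2 (Int.eq_zero_of_abs_lt_dvd h3 h1)

theorem plist_mem {k : ℕ} (g : SPerm k) : plist g ∈ arr (univ : Finset (Fin k)) := by
  rw [mem_arr]
  unfold plist supp
  rw [List.map_ofFn]
  refine ⟨?_, ?_⟩
  · rw [List.nodup_ofFn]
    exact g.1.injective
  · ext i
    simp only [List.mem_toFinset, mem_univ, iff_true, List.mem_ofFn]
    exact ⟨g.1.symm i, by simp⟩

theorem plist_inj {k : ℕ} : Function.Injective (plist : SPerm k → List (Fin k × Bool)) := by
  intro g g' h
  have h1 := List.ofFn_injective h
  have h2 : ∀ i, (g.1 i, g.2 i) = (g'.1 i, g'.2 i) := fun i => congrFun h1 i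
  refine Prod.ext ?_ ?_
  · ext i
    exact congrArg Fin.val (congrArg Prod.fst (h2 i))
  · funext i
    exact congrArg Prod.snd (h2 i)

theorem nSA_le {k : ℕ} (x : Fin k → ℤ) :
    nSA x ≤ NN (fun i => 2 ^ k * x i + pw k i) (univ : Finset (Fin k)) := by
  classical
  unfold nSA NN
  refine card_le_card_of_injOn plist ?_ (plist_inj.injOn)
  intro g hg
  rw [mem_coe, mem_filter] at hg ⊢
  refine ⟨plist_mem g, ?_⟩
  intro z hz hz'
  have hlen : (plist g).length = k := by simp [plist]
  rw [hlen] at hz'
  have h1 := hg.2 z hz hz'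
  rw [Ht_lin]
  have h2 : (((plist g).take z).map Prod.fst).Nodup := by
    have := (mem_arr.1 (plist_mem g)).1
    exact this.sublist ((List.take_sublist _ _).map _)
  have h3 := (abs_lt.1 (pw_bound _ h2)).1
  have h4 : (0 : ℤ) < 2 ^ k := by positivity
  nlinarith

/-- Sparre Andersen: a signed permutation of `l` integers has all partial sums positive with
probability at most `1 / √(l+1)`. -/
theorem SA (l : ℕ) (x : Fin l → ℤ) :
    Real.sqrt ((l : ℝ) + 1) * (nSA x : ℝ) ≤ (Fintype.card (SPerm l) : ℝ) := by
  classical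
  set v : Fin l → ℤ := fun i => 2 ^ l * x i + pw l i with hv
  have hgen : Gen v := gen_pert x
  let M : ℕ → ℕ := fun q => if h : ∃ S : Finset (Fin l), S.card = q then NN v h.choose else 0
  have hM : ∀ S : Finset (Fin l), NN v S = M S.card := by
    intro S
    have h : ∃ S' : Finset (Fin l), S'.card = S.card := ⟨S, rfl⟩
    simp only [M, dif_pos h]
    exact NN_eq v hgen S.card S _ rfl h.choose_spec
  have hcard : (univ : Finset (Fin l)).card = l := by simp
  have hF : ∀ n : ℕ, (0 : ℝ) < (n.factorial : ℝ) * 2 ^ n := fun n => by positivity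
  let c : ℕ → ℝ := fun q => (M q : ℝ) / ((q.factorial : ℝ) * 2 ^ q)
  have hc : ∀ q, (M q : ℝ) = c q * ((q.factorial : ℝ) * 2 ^ q) := fun q => by
    simp only [c]
    rw [div_mul_cancel₀ _ (hF q).ne']
  have hc0 : ∀ q, 0 ≤ c q := fun q => by
    simp only [c]
    positivity
  have hch : ∀ q ≤ l, ((l.choose q : ℕ) : ℝ) * ((q.factorial : ℝ) * 2 ^ q) *
      (((l - q).factorial : ℝ) * 2 ^ (l - q)) = (l.factorial : ℝ) * 2 ^ l := by
    intro q hq
    have h1 : ((l.choose q * q.factorial * (l - q).factorial : ℕ) : ℝ) = (l.factorial : ℝ) := by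
      rw [Nat.choose_mul_factorial_mul_factorial hq]
    push_cast at h1
    rw [← h1]
    have h2 : (2 : ℝ) ^ l = 2 ^ q * 2 ^ (l - q) := by
      rw [← pow_add]
      congr 1
      omega
    rw [h2]
    ring
  -- the convolution identity
  have hconv : ∑ q ∈ range (l + 1), c q * c (l - q) = 1 := by
    have h1 := card_arr_eq v hgen (univ : Finset (Fin l))
    rw [card_arr, hcard] at h1
    have h2 : ∀ q ∈ range (l + 1), ∑ Q ∈ powersetCard q (univ : Finset (Fin l)),
        NN v Q * NN v (univ \ Q) = l.choose q * (M q * M (l - q)) := by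
      intro q _
      have h6 : ∀ Q ∈ powersetCard q (univ : Finset (Fin l)),
          NN v Q * NN v (univ \ Q) = M q * M (l - q) := by
        intro Q hQ
        rw [mem_powersetCard] at hQ
        have h7 : (univ \ Q).card = l - q := by rw [card_sdiff_of_subset hQ.1, hcard, hQ.2]
        rw [hM Q, hM (univ \ Q), h7, hQ.2]
      rw [sum_congr rfl h6, sum_const, card_powersetCard, hcard, smul_eq_mul]
    rw [sum_congr rfl h2] at h1
    have h3 : ((l.factorial : ℝ) * 2 ^ l) =
        ∑ q ∈ range (l + 1), ((l.choose q : ℕ) : ℝ) * ((M q : ℝ) * (M (l - q) : ℝ)) := by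
      exact_mod_cast h1
    have h4 : ∀ q ∈ range (l + 1), ((l.choose q : ℕ) : ℝ) * ((M q : ℝ) * (M (l - q) : ℝ)) =
        (c q * c (l - q)) * ((l.factorial : ℝ) * 2 ^ l) := by
      intro q hq
      rw [mem_range] at hq
      rw [hc q, hc (l - q), ← hch q (by omega)]
      ring
    rw [sum_congr rfl h4, ← sum_mul] at h3
    have h5 := hF l
    have h6 : (∑ q ∈ range (l + 1), c q * c (l - q) - 1) * ((l.factorial : ℝ) * 2 ^ l) = 0 := by
      linarith
    rcases mul_eq_zero.1 h6 with h | h
    · linarith
    · exact absurd h h5.ne'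
  -- monotonicity
  have hmono : ∀ q ≤ l, c l ≤ c q := by
    intro q hq
    have h1 := NN_le v (univ : Finset (Fin l)) q (by rw [hcard]; exact hq)
    have h6 : ∀ Q ∈ powersetCard q (univ : Finset (Fin l)),
        NN v Q * (arr (univ \ Q)).card = M q * ((l - q).factorial * 2 ^ (l - q)) := by
      intro Q hQ
      rw [mem_powersetCard] at hQ
      have h7 : (univ \ Q).card = l - q := by rw [card_sdiff_of_subset hQ.1, hcard, hQ.2]
      rw [hM Q, card_arr, h7, hQ.2]
    rw [sum_congr rfl h6, sum_const, card_powersetCard, hcard, smul_eq_mul, hM univ, hcard] at h1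
    have h2 : (M l : ℝ) ≤ ((l.choose q : ℕ) : ℝ) *
        ((M q : ℝ) * (((l - q).factorial : ℝ) * 2 ^ (l - q))) := by exact_mod_cast h1
    have h3 : ((l.choose q : ℕ) : ℝ) * ((M q : ℝ) * (((l - q).factorial : ℝ) * 2 ^ (l - q))) =
        c q * ((l.factorial : ℝ) * 2 ^ l) := by
      rw [hc q, ← hch q hq]
      ring
    rw [h3, hc l] at h2
    exact le_of_mul_le_mul_right h2 (hF l)
  have hsq : ((l : ℝ) + 1) * (c l) ^ 2 ≤ 1 := by
    refine le_trans ?_ hconv.le
    calc ((l : ℝ) + 1) * (c l) ^ 2 = ∑ q ∈ range (l + 1), c l * c l := by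
          rw [sum_const, card_range, nsmul_eq_mul]
          push_cast
          ring
      _ ≤ ∑ q ∈ range (l + 1), c q * c (l - q) := by
          refine sum_le_sum fun q hq => ?_
          rw [mem_range] at hq
          exact mul_le_mul (hmono q (by omega)) (hmono (l - q) (by omega)) (hc0 l) (hc0 q)
  have hsqrt : Real.sqrt ((l : ℝ) + 1) * c l ≤ 1 := by
    have h1 : Real.sqrt ((l : ℝ) + 1) * c l = Real.sqrt (((l : ℝ) + 1) * (c l) ^ 2) := by
      rw [Real.sqrt_mul (by positivity), Real.sqrt_sq (hc0 l)]
    rw [h1]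
    exact Real.sqrt_le_one.2 hsq
  have hcardS : (Fintype.card (SPerm l) : ℝ) = (l.factorial : ℝ) * 2 ^ l := by
    simp [Fintype.card_perm]
  have hn : (nSA x : ℝ) ≤ (M l : ℝ) := by
    have h1 := nSA_le x
    rw [hM univ, hcard] at h1
    exact_mod_cast h1
  calc Real.sqrt ((l : ℝ) + 1) * (nSA x : ℝ) ≤ Real.sqrt ((l : ℝ) + 1) * (M l : ℝ) :=
        mul_le_mul_of_nonneg_left hn (Real.sqrt_nonneg _)
    _ = (Real.sqrt ((l : ℝ) + 1) * c l) * ((l.factorial : ℝ) * 2 ^ l) := by
        rw [hc l]; ring
    _ ≤ 1 * ((l.factorial : ℝ) * 2 ^ l) := mul_le_mul_of_nonneg_right hsqrt (hF l).le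
    _ = (Fintype.card (SPerm l) : ℝ) := by rw [one_mul, hcardS]

end Pool.Agent.Helper48.SAW
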